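import Pool.Agent.Q35.WR.Top

/-!
# Weak non-vanishing for real boundaries on covers of products of projective spaces, branched along
smooth hypersurfaces of the factors

**The varieties.** Let `F i` be a form of degree `d i` in `n i + 1` variables with a smooth zero set
in the projective `n i`-space, `i < r`, and `K` the function field of an abelian cover of the product
of the projective `n i`-spaces which is branched only along the hypersurfaces `F i = 0`:
`z j ^ (m j) = ∏ i, (F i (x i) / x i 0 ^ (d i)) ^ (a j i)`, where `m j` divides `a j i * d i`. Equivalently,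
`K` is the function field of a quotient of a product of cyclic hypersurfaces `w ^ (d i) = F i` by a
group of diagonal automorphisms.

A prime divisor `P` over the cover (a divisorial place of `K`) has the vector `multiplicities F d x P`
of the multiplicities `v i` of the hypersurfaces along `P`. The vectors `v` of nonnegative integers
which occur are zero or `Admissible`.

**The pairs.** The real boundary `Δ` is given by a function `c ≤ 1` on the vectors with real values:
`- c v` is the discrepancy of the log canonical pair `(X, Δ)` along the divisors with the vector `v`,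
and sections of `m (K + Δ)` are the rational `m`-canonical forms whose order along every prime divisor
`P` is at least `- m c (v)`. The only condition is `1 - c (k v) ≤ k (1 - c v)`. Examples are the
toroidal modifications `X` of the cover, with any real divisor supported over the hypersurfaces with
coefficients between `0` and `1`. No condition of finiteness on `c` is needed.

**The theorem.** `K + Δ` is pseudo-effective if and only if
`∑ i, (1 - (n i + 1) / d i) v i ≥ 1 - c v` for all admissible `v`, and then an integral multiple
`g (K + Δ)` has a nonzero section, although `Δ` is real.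

Proof: the real function `c` is approximated from above by rational functions which are smaller than
one only at finitely many vectors, for which `Pool.Agent.Q57.TQ.main_d` of
`MP_bc213e_ag.HypersurfaceQuotientPairs` applies.
-/

set_option autoImplicit false

open FF MvPolynomial Pool.Agent.W602.GT

namespace Pool.Agent.Results.MP_66b48b_ag.RealBoundariesOnProductCovers

section sections

variable {K : Type} [Field K] [Algebra ℂ K] (N : ℕ) (δ : Place ℂ K → ℝ)

/-- `ω` is a section of `m (K + Δ) + j A`: a rational section of the `m`-th power of the canonical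
bundle (`IsPluri`: a function of `N` rational vector fields which is multiplied by `det B ^ m` under
a linear substitution `B`) whose order on the vector fields which are regular at `P` is at least `j`
times the order of one of the functions in `S`, minus `m` times the real coefficient `δ P` of `Δ`,
for all prime divisors `P` (all divisorial places `P` of `K`). Here `A` is the divisor which is
generated by the finite set `S` of functions; `A = 0` if `S = {1}`. -/
def IsSection (S : Finset K) (m j : ℕ) (ω : (Fin N → Derivation ℂ K K) → K) : Prop :=
  IsPluri m ω ∧ ∀ P : Place ℂ K, Divisorial N P → ∀ D : Fin N → Derivation ℂ K K,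
    (∀ c, DerReg P (D c)) → ω D = 0 ∨ ∃ s ∈ S, s ≠ 0 ∧
      (j : ℝ) * P.ord s - m * δ P ≤ P.ord (ω D)

/-- `K + Δ` is pseudo-effective: there is a divisor `A` such that for all `M` a positive multiple
`j (M (K + Δ) + A)` has a nonzero section. -/
def Pseudoeffective : Prop :=
  ∃ S : Finset K, ∀ M : ℕ, ∃ j : ℕ, 1 ≤ j ∧ ∃ ω : (Fin N → Derivation ℂ K K) → K, ω ≠ 0 ∧
    IsSection N δ S (j * M) j ω

end sections

/-! ### Covers of products of projective spaces -/

/-- The form `F` has no singular zeros: its partial derivatives have no common zero but `0`. -/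
def Smooth {n : ℕ} (F : MvPolynomial (Fin (n + 1)) ℂ) : Prop :=
  ∀ x : Fin (n + 1) → ℂ, x ≠ 0 → ∃ l, eval x (pderiv l F) ≠ 0

/-- The affine coordinates of the product of the projective spaces. -/
noncomputable def affine {r : ℕ} {n : Fin r → ℕ} {K : Type} [Field K]
    (x : ∀ i, Fin (n i + 1) → K) (b : (i : Fin r) × Fin (n i)) : K :=
  x b.1 b.2.succ / x b.1 0

variable {r R : ℕ}

/-- The multiplicities which satisfy the divisibility conditions. -/
def Admissible (m : Fin R → ℕ) (a : Fin R → Fin r → ℕ) (v : Fin r → ℕ) : Prop :=
  v ≠ 0 ∧ ∀ j, m j ∣ ∑ i, a j i * v i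

/-- The function `c` is the function of the coefficients of a real boundary: it is at most one (the
pair is log canonical), the boundary is supported over the hypersurfaces, and the log discrepancy
`1 - c` is at most homogeneous along the rays. -/
structure IsRealBoundary (m : Fin R → ℕ) (a : Fin R → Fin r → ℕ) (c : (Fin r → ℕ) → ℝ) :
    Prop where
  zero : c 0 = 0
  le_one : ∀ v, c v ≤ 1
  ray : ∀ v (k : ℕ), 1 ≤ k → Admissible m a v → 1 - c (k • v) ≤ k * (1 - c v)

variable {K : Type} [Field K] [Algebra ℂ K] {n : Fin r → ℕ}

/-- The multiplicities of the hypersurfaces `F i = 0` along the prime divisor `P`; the `x i j` are the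
homogeneous coordinates of the `i`-th factor, which are divided by one of minimal order at `P`. -/
noncomputable def multiplicities (F : ∀ i, MvPolynomial (Fin (n i + 1)) ℂ) (d : Fin r → ℕ)
    (x : ∀ i, Fin (n i + 1) → K) (P : Place ℂ K) (i : Fin r) : ℕ :=
  (P.ord (aeval (x i) (F i)) -
    d i * Finset.univ.inf' Finset.univ_nonempty fun j => P.ord (x i j)).toNat

/-- `K` is the function field of an abelian cover of the product of the projective `n i`-spaces which
is branched only along the smooth hypersurfaces `F i = 0` of degrees `d i`. -/
structure IsCover (d : Fin r → ℕ) (F : ∀ i, MvPolynomial (Fin (n i + 1)) ℂ)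
    (m : Fin R → ℕ) (a : Fin R → Fin r → ℕ) (x : ∀ i, Fin (n i + 1) → K) (z : Fin R → K) :
    Prop where
  factors : 1 ≤ r
  dim : ∀ i, 1 ≤ n i
  degree : ∀ i, 1 ≤ d i
  form : ∀ i, (F i).IsHomogeneous (d i)
  smooth : ∀ i, Smooth (F i)
  exponent : ∀ j, 1 ≤ m j
  divides : ∀ j i, m j ∣ a j i * d i
  ne_zero : ∀ i, x i 0 ≠ 0
  basis : IsTranscendenceBasis ℂ (affine x)
  root : ∀ j, z j ^ m j = ∏ i, (aeval (x i) (F i) / x i 0 ^ d i) ^ a j i
  generates : IntermediateField.adjoin ℂ (Set.range (affine x) ∪ Set.range z) = ⊤

/-- **Weak non-vanishing for real boundaries** on the abelian covers of products of projective spaces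
which are branched along smooth hypersurfaces of the factors. -/
theorem result (r R : ℕ) (n d : Fin r → ℕ) (F : ∀ i, MvPolynomial (Fin (n i + 1)) ℂ)
    (m : Fin R → ℕ) (a : Fin R → Fin r → ℕ) (K : Type) [Field K] [Algebra ℂ K]
    (x : ∀ i, Fin (n i + 1) → K) (z : Fin R → K) (h : IsCover d F m a x z)
    (c : (Fin r → ℕ) → ℝ) (hc : IsRealBoundary m a c)
    (δ : Place ℂ K → ℝ) (hδ : ∀ P, δ P = c (multiplicities F d x P)) :
    (Pseudoeffective (∑ i, n i) δ ↔ ∀ v, Admissible m a v →
      1 - c v ≤ ∑ i, (1 - ((n i : ℝ) + 1) / d i) * v i) ∧
    (Pseudoeffective (∑ i, n i) δ →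
      ∃ g : ℕ, 1 ≤ g ∧ ∃ ω, ω ≠ 0 ∧ IsSection (∑ i, n i) δ {1} g 0 ω) := by
  obtain ⟨h1, h2⟩ := Pool.Agent.Q35.WR.realB (c := c) (δ := δ) h.factors h.dim rfl
    h.degree h.form h.smooth h.ne_zero h.basis h.exponent h.divides h.root h.generates hc.zero
    hc.le_one hc.ray hδ
  refine ⟨h1.trans ?_, h2⟩
  have h3 : ∀ i, ((d i : ℝ) - n i - 1) / d i = 1 - ((n i : ℝ) + 1) / d i := by
    intro i
    have : (d i : ℝ) ≠ 0 := by
      have := h.degree i
      exact_mod_cast (show d i ≠ 0 by omega)
    field_simp
    ring
  simp only [h3]
  rfl

end Pool.Agent.Results.MP_66b48b_ag.RealBoundariesOnProductCovers
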