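import Pool.Agent.Q47.TR.Final

/-!
# Weak nonvanishing with real coefficients for pairs on toric bundles over torus quotients

Let `X = V / Γ` be the quotient of a complex torus of any dimension by any finite group (with or
without fixed points and reflections, projective or not), and let `Y → X` be a toric bundle: a
locally trivial bundle whose fibre is a smooth complete toric variety, twisted by arbitrary line
bundles `c_i` on `X` (for example the projective bundle of a direct sum of line bundles). Let
`Δ = ∑ δ_j B_j` be any effective divisor on `Y` with real coefficients such that the pair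
`(Y_v, Δ_v)` is log canonical for one fibre `Y_v` of `Y → X` (no condition over the other points,
and `Δ` need not be invariant under the torus).

(1) If `K_Y + Δ` is pseudo-effective, then it is numerically equivalent to an effective real
divisor; more precisely it is a combination, with real coefficients `x_k > 0`, of integral divisors
`a_k (m K_Y) + ∑ b_{k,j} B_j`, `a_k ≥ 1`, `b_{k,j} ≥ 0`, which are linearly equivalent to effective
divisors.

(2) If `Γ` contains no reflections, then it suffices that the restriction of `K_Y + Δ` to the fibres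
of `Y → X` is numerically equivalent to an effective real divisor.

The toric bundle `Y` is described by Cox coordinates; `IsSmoothFan`, `LinEquiv` and `IsSection` are
defined in `Pool.Agent.Q47.TB.Defs`, `IsLogCanonical`, `degY`, `facY`, `degR`, `clsY` and `SumOf` in
`Pool.Agent.Q47.TR.Stm`, `IsTorusQuotient` and `LineBundle` (given by a factor of automorphy `L.e`) in `Pool.Agent.W594.SYZ.Defs2`, `IsChernForm`
and `IsNefForm` in `Pool.Agent.W594.SYZ.TQDefs`, `OnMirror`, `IsRamification` and
`IsLogPluricanonical` in `Pool.Agent.TH735.AQ.MirDefs`.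

The proof. A pseudo-effective class is the class of `∑ β_i D_i` plus a nef class of `X`, with real
`β_i ≥ 0`. Log canonicity on one fibre gives the inequality `∑ δ_j ord(F_j) ≤ A` for all monomial
valuations, hence (separation of a point from the Minkowski sum of the Newton polytopes) real weights
`s_{j,α} ≥ 0` on the exponents of the equations `F_j` with `∑_α s_{j,α} = δ_j` and
`∑ s_{j,α} α = 1 + β`. The weights, the `δ_j` and the coefficient of `K_Y` solve a system of linear
inequalities with integral coefficients: nonnegativity of the class on the roots of the reflections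
is such a system. So the solution is a positive combination of integral solutions. For an integral
solution the product of the powers of the coefficient functions defines a pair on `X` whose log
pluricanonical bundle is nef, and abundance for torus quotients with arbitrary effective boundary
gives the sections.
-/

set_option autoImplicit false

universe u w

namespace Pool.Agent.Results.MP_66b48b_ag.RealToricBundles

open Pool.Agent.W594.SYZ2 Pool.Agent.TH735.AQ Q47.TB Q47.TR MvPolynomial

variable {V : Type u} [NormedAddCommGroup V] [NormedSpace ℂ V] {Γ : Subgroup (V ≃ᵃ[ℂ] V)}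
  {ι : Type w} [Fintype ι] {n : ℕ}

/-- The real class `(δ; H)` on the toric bundle `Y` (`δ` a class of divisors on the fibre, modulo
linear equivalence, `H` a class on the base `X`) is numerically effective: a combination with
coefficients `t_k ≥ 0` of classes of effective divisors; the line bundle `M_k` on `X` has the Chern
form `HM_k` and `O_Y(d_k; M_k)` has a nonzero section. -/
def IsNumEff (u : ι → Fin n → ℤ) (c : ι → LineBundle Γ) (δ : ι → ℝ) (H : V → V → ℂ) : Prop :=
  ∃ (κ : Type) (_ : Fintype κ) (t : κ → ℝ) (d : κ → ι → ℤ) (M : κ → LineBundle Γ)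
    (HM : κ → V → V → ℂ) (q : Fin n → ℝ),
    (∀ k, 0 ≤ t k) ∧ (∀ k, IsChernForm (M k) (HM k)) ∧
    (∀ k, ∃ G, IsSection u c (d k) (M k).e G ∧ ∃ v, G v ≠ 0) ∧
    (∀ i, δ i = ∑ k, t k * d k i + ∑ l, q l * u i l) ∧
    ∀ v w, H v w = ∑ k, t k * HM k v w

/-- The real class `(δ; H)` is the sum of a numerically effective class and of the pullback `N` of a
nef class of the base. -/
def IsEff (u : ι → Fin n → ℤ) (c : ι → LineBundle Γ) (δ : ι → ℝ) (H : V → V → ℂ) : Prop :=
  ∃ (κ : Type) (_ : Fintype κ) (t : κ → ℝ) (d : κ → ι → ℤ) (M : κ → LineBundle Γ)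
    (HM : κ → V → V → ℂ) (N : V → V → ℂ) (q : Fin n → ℝ),
    (∀ k, 0 ≤ t k) ∧ (∀ k, IsChernForm (M k) (HM k)) ∧
    (∀ k, ∃ G, IsSection u c (d k) (M k).e G ∧ ∃ v, G v ≠ 0) ∧ IsNefForm N ∧
    (∀ i, δ i = ∑ k, t k * d k i + ∑ l, q l * u i l) ∧
    ∀ v w, H v w = ∑ k, t k * HM k v w + N v w

/-- The real class `(δ; H)` is pseudo-effective: a limit of sums of numerically effective classes and
nef classes of the base (all Kähler classes of `Y` are such sums). -/
def IsPseff (u : ι → Fin n → ℤ) (c : ι → LineBundle Γ) (δ : ι → ℝ) (H : V → V → ℂ) : Prop :=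
  ∃ (δn : ℕ → ι → ℝ) (Hn : ℕ → V → V → ℂ), (∀ j, IsEff u c (δn j) (Hn j)) ∧
    (∀ i, Filter.Tendsto (fun j => δn j i) Filter.atTop (nhds (δ i))) ∧
    ∀ v w, Filter.Tendsto (fun j => Hn j v w) Filter.atTop (nhds (H v w))

/-- Let `X = V / Γ` be a torus quotient, let `ρ` define the ramification divisor of `V → X`, let
`K = O_X(m K_X)`, `m ≥ 1`, let `Y → X` be the toric bundle given by a smooth complete fan with the
rays `u i` and by line bundles `c i` on `X` with Chern forms `Hc i`, let `B_1, …, B_r` be effective
divisors on `Y`, where `B_j` is given by the section `F_j` of `O_Y(d_j; M_j)`, and let `δ_j > 0` be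
real numbers, `Δ = ∑ δ_j B_j`. Assume that the fibre `(Y_v, Δ_v)` is log canonical for some `v = v₀`.

(1) Equivalent are: `K_Y + Δ` is pseudo-effective; `K_Y + Δ` is numerically equivalent to an
effective real divisor; `K_Y + Δ = ∑ x_k (a_k (m K_Y) + ∑ b_{k,j} B_j)` with real `x_k > 0`,
integers `a_k ≥ 1`, `b_{k,j} ≥ 0`, and each `O_Y(a_k (m K_Y) + ∑ b_{k,j} B_j)` has a nonzero
section.

(2) If `Γ` contains no reflections, then this holds if and only if the restriction of `K_Y + Δ` to
the fibres is numerically equivalent to an effective real divisor `∑ β_i D_i`. -/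
theorem result [FiniteDimensional ℂ V] (Γ : Subgroup (V ≃ᵃ[ℂ] V)) (hΓ : IsTorusQuotient Γ)
    (ρ : V → ℂ) (hρ : IsRamification Γ ρ) (m : ℕ) (hm : 1 ≤ m) (K : LineBundle Γ)
    (hK : Pool.Agent.TH735.AQ.IsLogPluricanonical K m ρ fun _ => 1) (HK : V → V → ℂ) (hHK : IsChernForm K HK)
    (n : ℕ) (u : ι → Fin n → ℤ) (S : Set (Set ι)) (hS : IsSmoothFan u S)
    (c : ι → LineBundle Γ) (Hc : ι → V → V → ℂ) (hc : ∀ i, IsChernForm (c i) (Hc i))
    (r : ℕ) (M : Fin r → LineBundle Γ) (HM : Fin r → V → V → ℂ)
    (hHM : ∀ j, IsChernForm (M j) (HM j)) (d : Fin r → ι → ℤ)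
    (F : Fin r → V → MvPolynomial ι ℂ) (hF : ∀ j, IsSection u c (d j) (M j).e (F j))
    (δ : Fin r → ℝ) (hδ : ∀ j, 0 < δ j) (v₀ : V)
    (hlc : Q47.TR.IsLogCanonical S δ fun j => F j v₀) :
    [IsPseff u c (degR d δ) (clsY HK HM Hc (1 / m) δ),
      IsNumEff u c (degR d δ) (clsY HK HM Hc (1 / m) δ),
      SumOf m δ fun a b => ∃ G, IsSection u c (degY d m a b) (facY K M c m a b) G ∧
        ∃ v, G v ≠ 0].TFAE ∧
    ((∀ v, ¬ OnMirror Γ v) →
      ((SumOf m δ fun a b => ∃ G, IsSection u c (degY d m a b) (facY K M c m a b) G ∧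
          ∃ v, G v ≠ 0) ↔
        ∃ (β : ι → ℝ) (q : Fin n → ℝ), (∀ i, 0 ≤ β i) ∧
          ∀ i, β i = degR d δ i + ∑ k, q k * u i k)) := by
  refine ⟨?_, fun hmir => ⟨fun h => ?_, ?_⟩⟩
  · tfae_have 1 → 3 := fun h => by
      obtain ⟨β, q, h0, h1, h2⟩ := exists_real hΓ hS hc h
      exact nonvanishing hΓ hρ hm hK hHK hS hc hHM hF hδ hlc h0 h1 (Or.inr fun a _ => h2 a)
    tfae_have 3 → 2 := fun h => numEff_of_sum hHK hc hHM hm h
    tfae_have 2 → 1 := fun h => pseff_of_numEff h
    tfae_finish
  · obtain ⟨β, q, h0, h1, -⟩ := exists_real hΓ hS hc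
      (pseff_of_numEff (numEff_of_sum hHK hc hHM hm h))
    exact ⟨β, q, h0, h1⟩
  · rintro ⟨β, q, h0, h1⟩
    exact nonvanishing hΓ hρ hm hK hHK hS hc hHM hF hδ hlc h0 h1 (Or.inl hmir)

end Pool.Agent.Results.MP_66b48b_ag.RealToricBundles
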